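import Pool.Agent.helper84.QD.Asm3

open Metric Set Topology Filter MeasureTheory
open scoped Manifold ContDiff ENNReal ComplexConjugate

namespace Pool.Agent.helper84.QD

/-- (DC) ⟺ (DCR) for every Jordan curve -/
theorem main : ∃ C : ℝ, ∀ Γ : Set (OnePoint ℂ), IsJordanCurve Γ →
    (DC Γ ↔ DCR Γ) ∧ ∀ A : ℝ, 0 ≤ A → DCWith Γ A → DCRWith Γ (C * (A + 1)) := by
  obtain ⟨C, hC0, hC⟩ := core_main2
  refine ⟨C, fun Γ hΓ => ?_⟩
  have key : ∀ A : ℝ, 0 ≤ A → DCWith Γ A → DCRWith Γ (C * (A + 1)) := fun A hA h =>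
    DCR_of_core (hC Γ hΓ A hA (core_of_DC h))
  refine ⟨⟨?_, ?_⟩, key⟩
  · rintro ⟨A, hA⟩
    have h' : DCWith Γ (max A 0) := fun D h1 h2 f h3 h4 =>
      (hA D h1 h2 f h3 h4).trans (ENNReal.ofReal_le_ofReal (le_max_left _ _))
    exact ⟨_, key _ (le_max_right _ _) h'⟩
  · rintro ⟨A, hA⟩
    exact ⟨A, DC_of_DCR hA⟩

end Pool.Agent.helper84.QD
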