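import Mathlib

/-!
Definitions for MP_747ad5_an (plane domains versus Riemann surfaces in quasicircle diameter sums).
-/

open Metric Set Topology Filter MeasureTheory
open scoped Manifold ContDiff ENNReal ComplexConjugate

namespace Pool.Agent.helper84.QD

/-- the map `z ↦ 1/z` of the Riemann sphere `OnePoint ℂ`. -/
noncomputable def sinv (p : OnePoint ℂ) : OnePoint ℂ :=
  OnePoint.elim p ((0 : ℂ) : OnePoint ℂ)
    (fun z => if z = 0 then OnePoint.infty else ((z⁻¹ : ℂ) : OnePoint ℂ))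

/-- `F` is holomorphic at `z` as a map to the Riemann sphere. -/
def HolAt (F : ℂ → OnePoint ℂ) (z : ℂ) : Prop :=
  ∃ g : ℂ → ℂ, AnalyticAt ℂ g z ∧
    ((∀ᶠ w in 𝓝 z, F w = ((g w : ℂ) : OnePoint ℂ)) ∨
      (∀ᶠ w in 𝓝 z, F w = sinv ((g w : ℂ) : OnePoint ℂ)))

/-- the set of connected components of a subset `S`. -/
def Comps {X : Type*} [TopologicalSpace X] (S : Set X) : Set (Set X) :=
  {C | ∃ x ∈ S, C = connectedComponentIn S x}

/-- Jordan curves in the sphere: injective continuous images of the circle. -/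
def IsJordanCurve (Γ : Set (OnePoint ℂ)) : Prop :=
  ∃ e : Circle → OnePoint ℂ, Continuous e ∧ Function.Injective e ∧ range e = Γ

/-- The sum of the Euclidean diameters of the sets `f⁻¹(C)`, `f : Δ → X` on the unit disk,
`C` running through the connected components of `S ⊆ X`. -/
noncomputable def diamSum {X : Type*} [TopologicalSpace X] (S : Set X) (f : ℂ → X) : ℝ≥0∞ :=
  ∑' C : Comps S, Metric.ediam {z ∈ ball (0 : ℂ) 1 | f z ∈ C.1}

/-- The estimate of condition (DC) with the constant `A`. -/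
def DCWith (Γ : Set (OnePoint ℂ)) (A : ℝ) : Prop :=
  ∀ D : Set (OnePoint ℂ), IsOpen D → IsSimplyConnected D →
    ∀ f : ℂ → OnePoint ℂ, (∀ z ∈ ball (0 : ℂ) 1, HolAt f z) → BijOn f (ball 0 1) D →
      diamSum (Γ ∩ D) f ≤ ENNReal.ofReal A

/-- Condition (DC). -/
def DC (Γ : Set (OnePoint ℂ)) : Prop := ∃ A : ℝ, DCWith Γ A

/-- `π` is a holomorphic map of the Riemann surface `R` to the sphere. -/
def SurfHol {R : Type} [TopologicalSpace R] [ChartedSpace ℂ R] (π : R → OnePoint ℂ) : Prop :=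
  ∀ x : R, HolAt (fun w => π ((chartAt ℂ x).symm w)) (chartAt ℂ x x)

/-- The estimate of condition (DCR) with the constant `A`. -/
def DCRWith (Γ : Set (OnePoint ℂ)) (A : ℝ) : Prop :=
  ∀ (R : Type) [TopologicalSpace R] [T2Space R] [SimplyConnectedSpace R]
    [ChartedSpace ℂ R] [IsManifold 𝓘(ℂ, ℂ) ω R] (π : R → OnePoint ℂ),
    SurfHol π → (∃ x y, π x ≠ π y) → (∀ x y, π x ∈ Γ → π x = π y → x = y) →
    ∀ f : ℂ → R, ContMDiffOn 𝓘(ℂ, ℂ) 𝓘(ℂ, ℂ) ω f (ball 0 1) → BijOn f (ball 0 1) univ →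
      diamSum (π ⁻¹' Γ) f ≤ ENNReal.ofReal A

/-- Condition (DCR). -/
def DCR (Γ : Set (OnePoint ℂ)) : Prop := ∃ A : ℝ, DCRWith Γ A

/-! ### the disk versions -/

/-- the part over `Γ` -/
def ovr (Γ : Set (OnePoint ℂ)) (F : ℂ → OnePoint ℂ) (U : Set ℂ) : Set ℂ := {z ∈ U | F z ∈ Γ}

/-- the sum of the diameters of the components of a plane set -/
noncomputable def cSum (S : Set ℂ) : ℝ≥0∞ := ∑' C : Comps S, Metric.ediam C.1

/-- Condition (DC), all conformal maps of the unit disk. -/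
def CoreDC (Γ : Set (OnePoint ℂ)) (A : ℝ) : Prop :=
  ∀ f : ℂ → OnePoint ℂ, (∀ z ∈ ball (0 : ℂ) 1, HolAt f z) → InjOn f (ball 0 1) →
    cSum (ovr Γ f (ball 0 1)) ≤ ENNReal.ofReal A

/-- holomorphic on the disk of radius `R`, nonconstant, injective over `Γ`. -/
structure Adm (Γ : Set (OnePoint ℂ)) (F : ℂ → OnePoint ℂ) (R : ℝ) : Prop where
  hol : ∀ z ∈ ball (0 : ℂ) R, HolAt F z
  nc : ∃ x ∈ ball (0 : ℂ) R, ∃ y ∈ ball (0 : ℂ) R, F x ≠ F y
  inj : ∀ x ∈ ball (0 : ℂ) R, ∀ y ∈ ball (0 : ℂ) R, F x ∈ Γ → F x = F y → x = y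

/-- Condition (DCR) on the disk. -/
def CoreDCR (Γ : Set (OnePoint ℂ)) (A : ℝ) : Prop :=
  ∀ F : ℂ → OnePoint ℂ, Adm Γ F 1 → cSum (ovr Γ F (ball 0 1)) ≤ ENNReal.ofReal A

/-! ### Green potentials of the unit disk -/

/-- Green's function of the unit disk. -/
noncomputable def gr (z y : ℂ) : ℝ := Real.log (‖1 - conj y * z‖ / ‖z - y‖)

/-- Green potential of `μ`. -/
noncomputable def pot (μ : Measure ℂ) (z : ℂ) : ℝ≥0∞ := ∫⁻ y, ENNReal.ofReal (gr z y) ∂μ

/-- `μ` is a finite atomless measure on the compact set `K` of the open unit disk with a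
continuous potential bounded by `1`. -/
structure Good (K : Set ℂ) (μ : Measure ℂ) : Prop where
  fin : IsFiniteMeasure μ
  supp : μ Kᶜ = 0
  atom : ∀ z : ℂ, μ {z} = 0
  le_one : ∀ z ∈ ball (0 : ℂ) 1, pot μ z ≤ 1
  cont : ContinuousOn (fun z => (pot μ z).toReal) (ball 0 1)

/-- the superlevel set of `T` in the open unit disk -/
def sup1 (T : ℂ → ℝ) (m : ℝ) : Set ℂ := {z ∈ ball (0 : ℂ) 1 | m < T z}

end Pool.Agent.helper84.QD
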