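import Pool.Agent.helper84.QD.Link

open Metric Set Topology Filter MeasureTheory
open scoped Manifold ContDiff ENNReal ComplexConjugate

namespace Pool.Agent.helper84.QD

lemma IsJordanCurve.isClosed {Γ : Set (OnePoint ℂ)} (hΓ : IsJordanCurve Γ) : IsClosed Γ := by
  obtain ⟨e, he, -, rfl⟩ := hΓ
  exact (isCompact_range he).isClosed

lemma Adm.continuousOn {Γ : Set (OnePoint ℂ)} {F : ℂ → OnePoint ℂ} {R : ℝ} (h : Adm Γ F R) :
    ContinuousOn F (ball 0 R) := fun z hz => (h.hol z hz).continuousAt.continuousWithinAt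

/-- `F⁻¹(Γ)` is relatively closed. -/
lemma ovr_relClosed {Γ : Set (OnePoint ℂ)} (hΓ : IsJordanCurve Γ) {F : ℂ → OnePoint ℂ} {R : ℝ}
    (h : Adm Γ F R) {z : ℂ} (hz : z ∈ ball (0 : ℂ) R)
    (hc : z ∈ closure (ovr Γ F (ball 0 R))) : z ∈ ovr Γ F (ball 0 R) := by
  refine ⟨hz, ?_⟩
  have h1 : ContinuousAt F z := (h.hol z hz).continuousAt
  have h2 : F z ∈ closure (F '' ovr Γ F (ball 0 R)) := mem_closure_image h1 hc
  have h3 : F '' ovr Γ F (ball 0 R) ⊆ Γ := by
    rintro _ ⟨w, hw, rfl⟩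
    exact hw.2
  exact hΓ.isClosed.closure_subset_iff.2 h3 h2

/-- closure of pairs: abstract closedness for `key_pairs` -/
lemma closure_pairs {Γ : Set (OnePoint ℂ)} (hΓ : IsJordanCurve Γ) {F : ℂ → OnePoint ℂ} {R : ℝ}
    (hR : 1 < R) (h : Adm Γ F R) {k : ℂ → ℂ}
    (hk : ∀ a ∈ ball 0 R \ ovr Γ F (ball 0 R), ∀ b ∈ ball 0 R \ ovr Γ F (ball 0 R),
      (k a = k b ↔ F a = F b)) :
    closure {p : ℂ × ℂ | p.1 ∈ (ball 0 R \ ovr Γ F (ball 0 R)) ∩ closedBall 0 1 ∧
      p.2 ∈ (ball 0 R \ ovr Γ F (ball 0 R)) ∩ closedBall 0 1 ∧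
      p.1 ≠ p.2 ∧ k p.1 = k p.2} ⊆
      (ball 0 R \ ovr Γ F (ball 0 R)) ×ˢ (ball 0 R \ ovr Γ F (ball 0 R)) := by
  set S := {p : ℂ × ℂ | p.1 ∈ (ball 0 R \ ovr Γ F (ball 0 R)) ∩ closedBall 0 1 ∧
      p.2 ∈ (ball 0 R \ ovr Γ F (ball 0 R)) ∩ closedBall 0 1 ∧
      p.1 ≠ p.2 ∧ k p.1 = k p.2} with hS
  rintro ⟨a, b⟩ hab
  rw [mem_closure_iff_seq_limit] at hab
  obtain ⟨u, hu, hlim⟩ := hab
  have h1 : Tendsto (fun n => (u n).1) atTop (𝓝 a) := (continuous_fst.tendsto _).comp hlim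
  have h2 : Tendsto (fun n => (u n).2) atTop (𝓝 b) := (continuous_snd.tendsto _).comp hlim
  have hcb : closedBall (0 : ℂ) 1 ⊆ ball 0 R := closedBall_subset_ball hR
  have ha1 : a ∈ closedBall (0 : ℂ) 1 := isClosed_closedBall.mem_of_tendsto h1
    (Eventually.of_forall fun n => (hu n).1.2)
  have hb1 : b ∈ closedBall (0 : ℂ) 1 := isClosed_closedBall.mem_of_tendsto h2
    (Eventually.of_forall fun n => (hu n).2.1.2)
  have hFn : ∀ n, F (u n).1 = F (u n).2 := fun n =>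
    (hk _ (hu n).1.1 _ (hu n).2.1.1).1 (hu n).2.2.2
  have hca := (h.hol a (hcb ha1)).continuousAt
  have hcb' := (h.hol b (hcb hb1)).continuousAt
  have hFab : F a = F b := by
    have t1 : Tendsto (fun n => F (u n).1) atTop (𝓝 (F a)) := hca.tendsto.comp h1
    have t2 : Tendsto (fun n => F (u n).2) atTop (𝓝 (F b)) := hcb'.tendsto.comp h2
    have : (fun n => F (u n).1) = fun n => F (u n).2 := funext hFn
    rw [this] at t1
    exact tendsto_nhds_unique t1 t2
  have key : F a ∉ Γ := by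
    intro hFa
    have hab' : a = b := h.inj a (hcb ha1) b (hcb hb1) hFa hFab
    obtain ⟨ε, hε, hinj⟩ := adm_locInj hΓ h (z := a) ⟨hcb ha1, hFa⟩
    have e1 : ∀ᶠ n in atTop, (u n).1 ∈ ball a ε := h1 (ball_mem_nhds a hε)
    have e2 : ∀ᶠ n in atTop, (u n).2 ∈ ball a ε := by
      rw [← hab'] at h2
      exact h2 (ball_mem_nhds a hε)
    obtain ⟨n, hn1, hn2⟩ := (e1.and e2).exists
    exact (hu n).2.2.1 (hinj hn1 hn2 (hFn n))
  exact ⟨⟨hcb ha1, fun h' => key h'.2⟩, ⟨hcb hb1, fun h' => key (hFab ▸ h'.2)⟩⟩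

/-- injectivity on the superlevel set -/
lemma injOn_superlevel {Γ : Set (OnePoint ℂ)} (hΓ : IsJordanCurve Γ) {F : ℂ → OnePoint ℂ} {R : ℝ}
    (hR : 1 < R) (h : Adm Γ F R) {T : ℂ → ℝ} {M : ℝ}
    (hTc : ContinuousOn T (closedBall 0 1)) (hT0 : ∀ z ∈ sphere (0 : ℂ) 1, T z = 0)
    (hTM : ∀ z ∈ closedBall (0 : ℂ) 1, T z ≤ M)
    (hTh : ∀ z ∈ ball (0 : ℂ) 1, z ∉ ovr Γ F (ball 0 R) →
      ∃ g : ℂ → ℂ, AnalyticAt ℂ g z ∧ ∀ᶠ w in 𝓝 z, T w = (g w).re) :
    InjOn F (sup1 T (M / 2)) := by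
  obtain ⟨k, hko, hka, hknc, hkF⟩ := adm_coord hΓ h
  intro a ha b hb hab
  by_contra hne
  have hbR : ball (0 : ℂ) 1 ⊆ ball 0 R := ball_subset_ball hR.le
  have hFa : F a ∉ Γ := fun hΓa => hne (h.inj a (hbR ha.1) b (hbR hb.1) hΓa hab)
  have haΩ : a ∈ ball 0 R \ ovr Γ F (ball 0 R) := ⟨hbR ha.1, fun h' => hFa h'.2⟩
  have hbΩ : b ∈ ball 0 R \ ovr Γ F (ball 0 R) := ⟨hbR hb.1, fun h' => hFa (hab ▸ h'.2)⟩
  have := key_pairs hko hka hknc hTc hT0 hTM (fun z hz => hTh z hz.2 hz.1.2)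
    (closure_pairs hΓ hR h hkF) ⟨haΩ, ha.1⟩ ⟨hbΩ, hb.1⟩ hne ((hkF a haΩ b hbΩ).2 hab)
  have h1 := ha.2
  have h2 := hb.2
  linarith

/-- a point of `U` in the closure of a component of `U` is in this component -/
lemma mem_comp_of_closure {U : Set ℂ} {x z : ℂ} (hx : x ∈ U) (hz : z ∈ U)
    (hc : z ∈ closure (connectedComponentIn U x)) : z ∈ connectedComponentIn U x := by
  have h1 : IsPreconnected (insert z (connectedComponentIn U x)) :=
    isPreconnected_connectedComponentIn.subset_closure (subset_insert _ _)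
      (insert_subset hc subset_closure)
  have h2 : insert z (connectedComponentIn U x) ⊆ connectedComponentIn U x :=
    h1.subset_connectedComponentIn (mem_insert_of_mem _ (mem_connectedComponentIn hx))
      (insert_subset hz (connectedComponentIn_subset U x))
  exact h2 (mem_insert _ _)

lemma isOpen_sup1 {T : ℂ → ℝ} {m : ℝ} (hTc : ContinuousOn T (closedBall 0 1)) :
    IsOpen (sup1 T m) := by
  have : ContinuousOn T (ball 0 1) := hTc.mono ball_subset_closedBall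
  exact this.isOpen_inter_preimage isOpen_ball isOpen_Ioi

/-- the compact set `{T ≥ s}` in a component of `{T > m}`. -/
lemma compact_level {T : ℂ → ℝ} {m s : ℝ} (hTc : ContinuousOn T (closedBall 0 1))
    (hT0 : ∀ z ∈ sphere (0 : ℂ) 1, T z = 0) (hms : m < s) (hs : 0 < s) {x : ℂ}
    (hx : x ∈ sup1 T m) : IsCompact {z ∈ connectedComponentIn (sup1 T m) x | s ≤ T z} := by
  have h1 : {z ∈ connectedComponentIn (sup1 T m) x | s ≤ T z} =
      closure (connectedComponentIn (sup1 T m) x) ∩ (closedBall 0 1 ∩ T ⁻¹' Ici s) := by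
    ext z
    constructor
    · rintro ⟨h1, h2⟩
      exact ⟨subset_closure h1, ball_subset_closedBall (connectedComponentIn_subset _ _ h1).1, h2⟩
    · rintro ⟨h1, h2, h3⟩
      have h3' : s ≤ T z := h3
      have hzb : z ∈ ball (0 : ℂ) 1 := by
        rcases (mem_closedBall.1 h2).lt_or_eq with h | h
        · exact h
        · have := hT0 z (mem_sphere.2 h)
          linarith
      exact ⟨mem_comp_of_closure hx ⟨hzb, by linarith⟩ h1, h3⟩
  rw [h1]
  have h2 : IsClosed (closedBall (0 : ℂ) 1 ∩ T ⁻¹' Ici s) :=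
    hTc.preimage_isClosed_of_isClosed isClosed_closedBall isClosed_Ici
  exact (isCompact_closedBall (0 : ℂ) 1).of_isClosed_subset (isClosed_closure.inter h2)
    (fun z hz => hz.2.1)

/-- a component of `F⁻¹(Γ)` is relatively closed -/
lemma comp_eq_inter {Γ : Set (OnePoint ℂ)} (hΓ : IsJordanCurve Γ) {F : ℂ → OnePoint ℂ} {R : ℝ}
    (h : Adm Γ F R) {C : Set ℂ} (hC : C ∈ Comps (ovr Γ F (ball 0 R))) :
    C = ball 0 R ∩ closure C := by
  obtain ⟨x, hx, rfl⟩ := hC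
  apply Subset.antisymm
  · intro z hz
    exact ⟨(connectedComponentIn_subset _ _ hz).1, subset_closure hz⟩
  · rintro z ⟨hz1, hz2⟩
    have : z ∈ ovr Γ F (ball 0 R) := ovr_relClosed hΓ h hz1
      (closure_mono (connectedComponentIn_subset _ _) hz2)
    exact mem_comp_of_closure hx this hz2

lemma comp_measurable {Γ : Set (OnePoint ℂ)} (hΓ : IsJordanCurve Γ) {F : ℂ → OnePoint ℂ} {R : ℝ}
    (h : Adm Γ F R) {C : Set ℂ} (hC : C ∈ Comps (ovr Γ F (ball 0 R))) : MeasurableSet C := by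
  rw [comp_eq_inter hΓ h hC]
  exact isOpen_ball.measurableSet.inter isClosed_closure.measurableSet

lemma comps_countable {Γ : Set (OnePoint ℂ)} (hΓ : IsJordanCurve Γ) {F : ℂ → OnePoint ℂ} {R : ℝ}
    (h : Adm Γ F R) (hs : cSum (ovr Γ F (ball 0 R)) ≠ ⊤) :
    Countable (Comps (ovr Γ F (ball 0 R))) := by
  have h1 := Summable.countable_support_ennreal hs
  have h2 : Function.support (fun C : Comps (ovr Γ F (ball 0 R)) => Metric.ediam C.1) = univ := by
    ext C
    simp only [Function.mem_support, mem_univ, iff_true]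
    obtain ⟨C, x, hx, rfl⟩ := C
    exact (comp_pos hΓ h hx).ne'
  rw [h2] at h1
  exact countable_univ_iff.1 h1

/-- a component not accumulating at the circle is compact -/
lemma comp_compact {Γ : Set (OnePoint ℂ)} (hΓ : IsJordanCurve Γ) {F : ℂ → OnePoint ℂ}
    (h : Adm Γ F 1) {C : Set ℂ} (hC : C ∈ Comps (ovr Γ F (ball 0 1))) {r : ℝ} (hr : r < 1)
    (hCr : ∀ w ∈ C, ‖w‖ ≤ r) : IsCompact C := by
  have h1 : C ⊆ closedBall 0 r := fun w hw => by simpa using hCr w hw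
  have h2 : closure C ⊆ closedBall 0 r := closure_minimal h1 isClosed_closedBall
  have h3 : closure C ⊆ ball 0 1 := h2.trans (closedBall_subset_ball hr)
  have h4 : C = closure C := by
    conv_lhs => rw [comp_eq_inter hΓ h hC]
    exact inter_eq_right.2 h3
  rw [h4]
  exact (isCompact_closedBall (0 : ℂ) r).of_isClosed_subset isClosed_closure h2

/-- the sum over the components -/
lemma integral_comps {Γ : Set (OnePoint ℂ)} (hΓ : IsJordanCurve Γ) {A : ℝ}
    {F : ℂ → OnePoint ℂ} {R : ℝ} (hR : 1 < R) (hF : Adm Γ F R)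
    {ι : Type} [Fintype ι] (K : ι → Set ℂ)
    (hK : ∀ i, K i ⊆ ovr Γ F (ball 0 R) ∩ ball 0 1) (hKc : ∀ i, IsCompact (K i))
    (hsep : ∀ i j, i ≠ j → ∀ x ∈ K i, ∀ y ∈ K j,
      y ∉ connectedComponentIn (ovr Γ F (ball 0 R)) x)
    (μ : ι → Measure ℂ) (hμ : ∀ i, Good (K i) (μ i))
    {g : ℂ → ℂ} (hg : DifferentiableOn ℂ g (ball 0 1)) (hi : InjOn g (ball 0 1))
    (hm : MapsTo g (ball 0 1) (ball 0 1)) (hf : Adm Γ (fun w => F (g w)) 1)
    (hA : cSum (ovr Γ (fun w => F (g w)) (ball 0 1)) ≤ ENNReal.ofReal A) :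
    (∫⁻ y in g '' ball 0 1, ENNReal.ofReal (gr 0 (Function.invFunOn g (ball 0 1) y))
      ∂(∑ i, μ i)) ≤ 8 * ENNReal.ofReal A + 1 := by
  classical
  set f : ℂ → OnePoint ℂ := fun w => F (g w) with hfdef
  set S := ovr Γ f (ball 0 1) with hS
  set H : ℂ → ℝ≥0∞ := fun y => ENNReal.ofReal (gr 0 (Function.invFunOn g (ball 0 1) y)) with hH
  have hgc : ContinuousOn g (ball 0 1) := hg.continuousOn
  have hcount : Countable (Comps S) :=
    comps_countable hΓ hf (ne_top_of_le_ne_top ENNReal.ofReal_ne_top hA)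
  -- the open image
  have hKall : (∑ i, μ i) (⋃ i, K i)ᶜ = 0 := by
    rw [Measure.finsetSum_apply]
    refine Finset.sum_eq_zero fun i _ => ?_
    exact measure_mono_null (compl_subset_compl.2 (subset_iUnion K i)) (hμ i).supp
  have hsub : ∀ y ∈ g '' ball 0 1, y ∈ ⋃ i, K i → y ∈ ⋃ C : Comps S, g '' C.1 := by
    rintro _ ⟨w, hw, rfl⟩ hy
    obtain ⟨i, hyi⟩ := mem_iUnion.1 hy
    have hwS : w ∈ S := ⟨hw, (hK i hyi).1.2⟩
    exact mem_iUnion.2 ⟨⟨_, w, hwS, rfl⟩, w, mem_connectedComponentIn hwS, rfl⟩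
  have step1 : (∫⁻ y in g '' ball 0 1, H y ∂(∑ i, μ i)) ≤
      ∫⁻ y in ⋃ C : Comps S, g '' C.1, H y ∂(∑ i, μ i) := by
    have hmeas : (∑ i, μ i).restrict (g '' ball 0 1) ≤
        (∑ i, μ i).restrict (⋃ C : Comps S, g '' C.1) := by
      refine Measure.restrict_mono_ae ?_
      have : ∀ᵐ y ∂(∑ i, μ i), y ∈ ⋃ i, K i := by
        rw [ae_iff]
        exact hKall
      filter_upwards [this] with y hy hy1
      exact hsub y hy1 hy
    exact lintegral_mono' hmeas le_rfl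
  have step2 : (∫⁻ y in ⋃ C : Comps S, g '' C.1, H y ∂(∑ i, μ i)) ≤
      ∑' C : Comps S, ∫⁻ y in g '' C.1, H y ∂(∑ i, μ i) := lintegral_iUnion_le _ _
  -- one component
  have one : ∀ C : Comps S, ∀ B : ℝ≥0∞, (∀ i, ∫⁻ y in g '' C.1, H y ∂(μ i) ≤ B) →
      ∫⁻ y in g '' C.1, H y ∂(∑ i, μ i) ≤ B := by
    intro C B hB
    have hCsub : C.1 ⊆ S := by
      obtain ⟨C, x, hx, rfl⟩ := C
      exact connectedComponentIn_subset _ _
    have hCpre : IsPreconnected C.1 := by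
      obtain ⟨C, x, hx, rfl⟩ := C
      exact isPreconnected_connectedComponentIn
    have hgC : IsPreconnected (g '' C.1) :=
      hCpre.image g (hgc.mono fun w hw => (hCsub hw).1)
    have hgE : g '' C.1 ⊆ ovr Γ F (ball 0 R) := by
      rintro _ ⟨w, hw, rfl⟩
      exact ⟨ball_subset_ball hR.le (hm (hCsub hw).1), (hCsub hw).2⟩
    have hzero : ∀ i, (K i ∩ g '' C.1) = ∅ → ∫⁻ y in g '' C.1, H y ∂(μ i) = 0 := by
      intro i hi0
      have : (μ i) (g '' C.1) = 0 := by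
        refine measure_mono_null (fun y hy => ?_) (hμ i).supp
        intro hyK
        have : y ∈ K i ∩ g '' C.1 := ⟨hyK, hy⟩
        rw [hi0] at this
        exact this
      rw [Measure.restrict_eq_zero.2 this, lintegral_zero_measure]
    rw [show (∑ i, μ i).restrict (g '' C.1) = ∑ i, (μ i).restrict (g '' C.1) from
      map_sum (Measure.restrictₗ (g '' C.1)) μ Finset.univ, lintegral_finsetSum_measure]
    by_cases hex : ∃ i, (K i ∩ g '' C.1).Nonempty
    · obtain ⟨i₀, y₀, hy₀K, hy₀C⟩ := hex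
      rw [Finset.sum_eq_single i₀]
      · exact hB i₀
      · intro j _ hj
        apply hzero
        by_contra hne
        obtain ⟨y₁, hy₁K, hy₁C⟩ := nonempty_iff_ne_empty.2 hne
        exact hsep i₀ j (Ne.symm hj) y₀ hy₀K y₁ hy₁K
          (hgC.subset_connectedComponentIn hy₀C hgE hy₁C)
      · intro h
        exact absurd (Finset.mem_univ _) h
    · push Not at hex
      rw [Finset.sum_eq_zero fun i _ => hzero i (hex i)]
      exact bot_le
  have hCm : ∀ C : Comps S, MeasurableSet C.1 := fun C => comp_measurable hΓ hf C.2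
  have hCb : ∀ C : Comps S, C.1 ⊆ ball 0 1 := fun C => by
    obtain ⟨C, x, hx, rfl⟩ := C
    exact fun w hw => (connectedComponentIn_subset _ _ hw).1
  by_cases hcomp : ∃ C : Comps S, IsCompact C.1
  · obtain ⟨C₀, hC₀⟩ := hcomp
    have hSC : S = C₀.1 := comp_compact_unique hΓ hf C₀.2 hC₀
    have hsub1 : (⋃ C : Comps S, g '' C.1) ⊆ g '' C₀.1 := by
      refine iUnion_subset fun C => image_mono ?_
      rw [← hSC]
      obtain ⟨C, x, hx, rfl⟩ := C
      exact connectedComponentIn_subset _ _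
    have h1 : (∫⁻ y in g '' C₀.1, H y ∂(∑ i, μ i)) ≤ 1 := by
      refine one C₀ 1 fun i => ?_
      have := (hμ i).fin
      exact green_local_one hg hi hm (hμ i).le_one (hCb C₀) (hCm C₀)
    calc _ ≤ _ := step1
      _ ≤ ∫⁻ y in g '' C₀.1, H y ∂(∑ i, μ i) := lintegral_mono_set hsub1
      _ ≤ 1 := h1
      _ ≤ _ := le_add_self
  · push Not at hcomp
    have h2 : ∀ C : Comps S, ∫⁻ y in g '' C.1, H y ∂(∑ i, μ i) ≤ 8 * Metric.ediam C.1 := by
      intro C
      refine one C _ fun i => ?_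
      have := (hμ i).fin
      refine green_local hg hi hm (hμ i).le_one (hCb C) (hCm C) ?_
      intro r hr
      by_contra hne
      push Not at hne
      exact hcomp C (comp_compact hΓ hf C.2 hr hne)
    calc _ ≤ _ := step1
      _ ≤ _ := step2
      _ ≤ ∑' C : Comps S, 8 * Metric.ediam C.1 := ENNReal.tsum_le_tsum h2
      _ = 8 * cSum S := by rw [ENNReal.tsum_mul_left]; rfl
      _ ≤ 8 * ENNReal.ofReal A := by gcongr
      _ ≤ _ := le_self_add


end Pool.Agent.helper84.QD
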