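import Pool.Agent.helper84.QD.Asm1

open Metric Set Topology Filter MeasureTheory
open scoped Manifold ContDiff ENNReal ComplexConjugate

namespace Pool.Agent.helper84.QD

lemma pot_sum {ι : Type} [Fintype ι] (μ : ι → Measure ℂ) (z : ℂ) :
    pot (∑ i, μ i) z = ∑ i, pot (μ i) z := by
  unfold pot
  rw [lintegral_finsetSum_measure]

theorem core_finite2 {c : ℝ} (hc : ∀ K : Set ℂ, IsCompact K → IsPreconnected K →
    K ⊆ ball 0 1 → ∃ μ : Measure ℂ, Good K μ ∧ ENNReal.ofReal (c * Metric.diam K) ≤ pot μ 0)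
    {Γ : Set (OnePoint ℂ)} (hΓ : IsJordanCurve Γ) {A : ℝ} (hA : 0 ≤ A)
    (h : CoreDC Γ A) {F : ℂ → OnePoint ℂ} {R : ℝ} (hR : 1 < R) (hF : Adm Γ F R)
    {ι : Type} [Fintype ι] (K : ι → Set ℂ) (hKc : ∀ i, IsCompact (K i))
    (hKp : ∀ i, IsPreconnected (K i)) (hK : ∀ i, K i ⊆ ovr Γ F (ball 0 R) ∩ ball 0 1)
    (hsep : ∀ i j, i ≠ j → ∀ x ∈ K i, ∀ y ∈ K j,
      y ∉ connectedComponentIn (ovr Γ F (ball 0 R)) x) :
    ∑ i, ENNReal.ofReal (c * Metric.diam (K i)) ≤ ENNReal.ofReal (16 * A + 2) := by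
  classical
  choose μ hμ hμ0 using fun i => hc (K i) (hKc i) (hKp i) (fun z hz => (hK i hz).2)
  set ν : Measure ℂ := ∑ i, μ i with hν
  set Ka : Set ℂ := ⋃ i, K i with hKa
  have hKac : IsCompact Ka := isCompact_iUnion hKc
  have hKa1 : Ka ⊆ ball 0 1 := iUnion_subset fun i z hz => (hK i hz).2
  have hfin : IsFiniteMeasure ν := by
    refine ⟨?_⟩
    rw [hν, Measure.finsetSum_apply]
    refine ENNReal.sum_lt_top.2 fun i _ => ?_
    have := (hμ i).fin
    exact measure_lt_top _ _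
  have hsupp : ν Kaᶜ = 0 := by
    rw [hν, Measure.finsetSum_apply]
    refine Finset.sum_eq_zero fun i _ => ?_
    exact measure_mono_null (compl_subset_compl.2 (subset_iUnion K i)) (hμ i).supp
  have hat : ∀ z : ℂ, ν {z} = 0 := by
    intro z
    rw [hν, Measure.finsetSum_apply]
    exact Finset.sum_eq_zero fun i _ => (hμ i).atom z
  have hpf : ∀ z ∈ ball (0 : ℂ) 1, ∀ i, pot (μ i) z ≠ ⊤ := fun z hz i =>
    ne_top_of_le_ne_top ENNReal.one_ne_top ((hμ i).le_one z hz)
  have hpfin : ∀ z ∈ ball (0 : ℂ) 1, pot ν z ≠ ⊤ := by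
    intro z hz
    rw [hν, pot_sum]
    exact ENNReal.sum_ne_top.2 fun i _ => hpf z hz i
  set T : ℂ → ℝ := fun z => (pot ν z).toReal with hT
  have hTball : ContinuousOn T (ball 0 1) := by
    have h1 : ContinuousOn (fun z => ∑ i, (pot (μ i) z).toReal) (ball 0 1) :=
      continuousOn_finsetSum _ fun i _ => (hμ i).cont
    refine h1.congr fun z hz => ?_
    simp only [hT]
    rw [hν, pot_sum, ENNReal.toReal_sum fun i _ => hpf z hz i]
  obtain ⟨hTc, hTs⟩ := pot_boundary hKac hKa1 hsupp hTball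
  have hTs0 : ∀ z ∈ sphere (0 : ℂ) 1, T z = 0 := fun z hz => by simp [hT, hTs z hz]
  obtain ⟨x₀, hx₀, hmax⟩ := (isCompact_closedBall (0 : ℂ) 1).exists_isMaxOn
    ⟨0, mem_closedBall_self zero_le_one⟩ hTc
  set M := T x₀ with hM
  have hTM : ∀ z ∈ closedBall (0 : ℂ) 1, T z ≤ M := fun z hz => hmax hz
  have hT0nn : ∀ z, 0 ≤ T z := fun z => ENNReal.toReal_nonneg
  have h0b : (0 : ℂ) ∈ ball (0 : ℂ) 1 := mem_ball_self one_pos
  -- the main bound
  have hMle : M ≤ 16 * A + 2 := by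
    by_contra hcon
    push Not at hcon
    have hMpos : 0 < M := by linarith
    have hx₀b : x₀ ∈ ball (0 : ℂ) 1 := by
      rcases (mem_closedBall.1 hx₀).lt_or_eq with h' | h'
      · exact h'
      · have := hTs0 x₀ (mem_sphere.2 h')
        linarith
    have hx₀U : x₀ ∈ sup1 T (M / 2) := ⟨hx₀b, by linarith⟩
    have hinj : InjOn F (sup1 T (M / 2)) := by
      refine injOn_superlevel hΓ hR hF hTc hTs0 hTM fun z hz hzE => ?_
      refine pot_harmonic hKac hKa1 hsupp hz fun hzK => hzE ?_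
      obtain ⟨i, hi⟩ := mem_iUnion.1 hzK
      exact (hK i hi).1
    have hsm : ∀ c ∈ ball (0 : ℂ) 1, ∀ᶠ r in 𝓝[>] (0 : ℝ), Real.circleAverage T c r ≤ T c := by
      intro z hz
      obtain ⟨ε, hε, hεb⟩ := Metric.isOpen_iff.1 isOpen_ball z hz
      filter_upwards [Ioo_mem_nhdsGT hε] with r hr
      exact pot_superMean hKac hKa1 hsupp hat hpfin hTball hr.1
        ((closedBall_subset_ball hr.2).trans hεb)
    set D := connectedComponentIn (sup1 T (M / 2)) x₀ with hD
    have hDsub : D ⊆ sup1 T (M / 2) := connectedComponentIn_subset _ _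
    have hDo : IsOpen D := (isOpen_sup1 hTc).connectedComponentIn
    have hDc : IsConnected D := isConnected_connectedComponentIn_iff.2 hx₀U
    have hDb : Bornology.IsBounded D := isBounded_ball.subset fun z hz => (hDsub hz).1
    have hprim : ∀ f : ℂ → ℂ, DifferentiableOn ℂ f D →
        ∃ g : ℂ → ℂ, ∀ z ∈ D, HasDerivAt g (f z) z := fun f hf =>
      superlevel_primitives hTc (fun z hz => (hTs0 z hz).trans_lt (by linarith)) hsm hx₀U hf
    set η : ℝ := (M - (16 * A + 2)) / 4 with hη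
    have hηpos : 0 < η := by linarith
    have hL := compact_level (s := M / 2 + η) hTc hTs0 (by linarith) (by linarith) hx₀U
    obtain ⟨g, hgd, hgi, hgm, hg0, hgd', ρ, hρ, hρ1, hgL⟩ :=
      approx_riemann hDo hDc hDb hprim (mem_connectedComponentIn hx₀U) hL (fun z hz => hz.1)
    have hgm1 : MapsTo g (ball 0 1) (ball 0 1) := fun w hw => (hDsub (hgm hw)).1
    have hAdm : Adm Γ (fun w => F (g w)) 1 := by
      refine ⟨fun z hz => ?_, ?_, ?_⟩
      · refine HolAt.comp_analytic (hF.hol _ (ball_subset_ball hR.le (hgm1 hz))) ?_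
        exact hgd.analyticAt (isOpen_ball.mem_nhds hz)
      · refine ⟨0, h0b, 1 / 2, by simp; norm_num, fun heq => ?_⟩
        have h12 : (1 / 2 : ℂ) ∈ ball (0 : ℂ) 1 := by simp; norm_num
        have := hinj (hDsub (hgm h0b)) (hDsub (hgm h12)) heq
        have := hgi h0b h12 this
        norm_num at this
      · intro x hx y hy _ hxy
        exact hgi hx hy (hinj (hDsub (hgm hx)) (hDsub (hgm hy)) hxy)
    have hfA := h (fun w => F (g w)) hAdm.hol
      (fun x hx y hy hxy => hgi hx hy (hinj (hDsub (hgm hx)) (hDsub (hgm hy)) hxy))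
    have hG := green_mean (m := ENNReal.ofReal (M / 2 + η)) hgd hgi hgm1 hgd' hKac hKa1 hsupp hat
      hρ hρ1 (by
        intro w hw
        have hwb : w ∈ ball (0 : ℂ) 1 := by simpa [hw] using hρ1
        have h1 : ¬ (M / 2 + η ≤ T (g w)) := fun h' => hgL w hw ⟨hgm hwb, h'⟩
        push Not at h1
        rw [← ENNReal.ofReal_toReal (hpfin _ (hgm1 hwb))]
        exact ENNReal.ofReal_le_ofReal h1.le)
    have hI := integral_comps hΓ hR hF K hK hKc hsep μ hμ hgd hgi hgm1 hAdm hfA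
    rw [hg0] at hG
    have h3 : pot ν x₀ ≤ 8 * ENNReal.ofReal A + 1 + ENNReal.ofReal (M / 2 + η) :=
      hG.trans (by gcongr)
    have h4 : ENNReal.ofReal M ≤ ENNReal.ofReal (8 * A + 1 + (M / 2 + η)) := by
      have e1 : ENNReal.ofReal M = pot ν x₀ := by
        rw [hM, hT]; exact ENNReal.ofReal_toReal (hpfin _ hx₀b)
      rw [e1]
      refine h3.trans (le_of_eq ?_)
      have e2 : (0 : ℝ) ≤ M / 2 + η := by positivity
      have e3 : (0 : ℝ) ≤ 8 * A := by positivity
      rw [ENNReal.ofReal_add (add_nonneg e3 zero_le_one) e2,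
        ENNReal.ofReal_add e3 zero_le_one, ENNReal.ofReal_mul (by norm_num : (0 : ℝ) ≤ 8)]
      simp
    have h5 := (ENNReal.ofReal_le_ofReal_iff (by positivity)).1 h4
    linarith
  calc ∑ i, ENNReal.ofReal (c * Metric.diam (K i)) ≤ ∑ i, pot (μ i) 0 :=
        Finset.sum_le_sum fun i _ => hμ0 i
    _ = pot ν 0 := by rw [hν, pot_sum]
    _ = ENNReal.ofReal (T 0) := (ENNReal.ofReal_toReal (hpfin 0 h0b)).symm
    _ ≤ ENNReal.ofReal (16 * A + 2) :=
        ENNReal.ofReal_le_ofReal ((hTM 0 (mem_closedBall_self zero_le_one)).trans hMle)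

end Pool.Agent.helper84.QD
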