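import Pool.Agent.helper84.QD.Asm2

open Metric Set Topology Filter MeasureTheory
open scoped Manifold ContDiff ENNReal ComplexConjugate

namespace Pool.Agent.helper84.QD

lemma comps_eq_of_mem {X : Type*} [TopologicalSpace X] {S C : Set X} (hC : C ∈ Comps S) {x : X}
    (hx : x ∈ C) : C = connectedComponentIn S x := by
  obtain ⟨y, hy, rfl⟩ := hC
  exact connectedComponentIn_eq hx

lemma comps_subset {X : Type*} [TopologicalSpace X] {S C : Set X} (hC : C ∈ Comps S) : C ⊆ S := by
  obtain ⟨y, hy, rfl⟩ := hC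
  exact connectedComponentIn_subset _ _

lemma exists_near_ediam {C : Set ℂ} (h0 : 0 < Metric.ediam C) (ht : Metric.ediam C ≠ ⊤)
    {δ : ℝ≥0∞} (hδ : 0 < δ) : ∃ x ∈ C, ∃ y ∈ C, Metric.ediam C ≤ edist x y + δ := by
  have h1 : Metric.ediam C - δ < Metric.ediam C := ENNReal.sub_lt_self ht h0.ne' hδ.ne'
  by_contra hcon
  push Not at hcon
  have h2 : Metric.ediam C ≤ Metric.ediam C - δ := by
    refine Metric.ediam_le fun x hx y hy => ?_
    exact ENNReal.le_sub_of_add_le_right (ne_top_of_le_ne_top ht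
      (le_self_add.trans (hcon x hx y hy).le |>.trans le_rfl |> fun h => by
        exact (le_add_self.trans (hcon x hx y hy).le))) (hcon x hx y hy).le
  exact absurd h1 (not_lt.2 h2)

lemma exists_radius {K : Set ℂ} (hK : IsCompact K) (hK1 : K ⊆ ball 0 1) :
    ∃ r : ℝ, 0 < r ∧ r < 1 ∧ K ⊆ ball 0 r := by
  rcases K.eq_empty_or_nonempty with rfl | hne
  · exact ⟨1 / 2, by norm_num, by norm_num, empty_subset _⟩
  · obtain ⟨z, hz, hmax⟩ := hK.exists_isMaxOn hne continuous_norm.continuousOn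
    have hz1 : ‖z‖ < 1 := by simpa using hK1 hz
    refine ⟨(‖z‖ + 1) / 2, by positivity, by linarith, fun w hw => ?_⟩
    have : ‖w‖ ≤ ‖z‖ := hmax hw
    simp only [mem_ball, dist_zero_right]
    linarith

theorem core_bound {c : ℝ} (hc0 : 0 < c) (hc : ∀ K : Set ℂ, IsCompact K → IsPreconnected K →
    K ⊆ ball 0 1 → ∃ μ : Measure ℂ, Good K μ ∧ ENNReal.ofReal (c * Metric.diam K) ≤ pot μ 0)
    {Γ : Set (OnePoint ℂ)} (hΓ : IsJordanCurve Γ) {A : ℝ} (hA : 0 ≤ A)
    (h : CoreDC Γ A) : CoreDCR Γ ((16 * A + 2) / c) := by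
  classical
  intro F hF
  set S := ovr Γ F (ball 0 1) with hS
  unfold cSum
  rw [ENNReal.tsum_eq_iSup_sum]
  refine iSup_le fun s => ?_
  refine ENNReal.le_of_forall_pos_le_add fun ε hε _ => ?_
  set δ : ℝ≥0∞ := (ε : ℝ≥0∞) / (s.card + 1) with hδ
  have hδ0 : 0 < δ := ENNReal.div_pos (by exact_mod_cast hε.ne') (by finiteness)
  have hbd : ∀ C : Comps S, Metric.ediam C.1 ≠ ⊤ := by
    intro C
    have h1 : C.1 ⊆ ball 0 1 := fun z hz => (comps_subset C.2 hz).1
    exact (isBounded_ball.subset h1).ediam_ne_top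
  have hpos : ∀ C : Comps S, 0 < Metric.ediam C.1 := by
    intro C
    obtain ⟨C, x, hx, rfl⟩ := C
    exact comp_pos hΓ hF hx
  choose x hx y hy hxy using fun C : Comps S => exists_near_ediam (hpos C) (hbd C) hδ0
  have hjoin : ∀ C : Comps S, ∃ K ⊆ S, IsCompact K ∧ IsPreconnected K ∧ x C ∈ K ∧ y C ∈ K := by
    intro C
    refine comp_join hΓ hF (comps_subset C.2 (hx C)) ?_
    have := comps_eq_of_mem C.2 (hx C)
    rw [← this]
    exact hy C
  choose K hKS hKc hKp hxK hyK using hjoin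
  have hKC : ∀ C : Comps S, K C ⊆ C.1 := by
    intro C
    rw [comps_eq_of_mem C.2 (hx C)]
    exact (hKp C).subset_connectedComponentIn (hxK C) (hKS C)
  obtain ⟨r, hr0, hr1, hKr⟩ := exists_radius (K := ⋃ C ∈ s, K C)
    (s.isCompact_biUnion fun C _ => hKc C)
    (iUnion₂_subset fun C _ z hz => (hKS C hz).1)
  have hR : 1 < 1 / r := by
    rw [lt_div_iff₀ hr0]; linarith
  have hrC : (r : ℂ) ≠ 0 := by exact_mod_cast hr0.ne'
  have hscale : ∀ z ∈ ball (0 : ℂ) (1 / r), (r : ℂ) * z ∈ ball (0 : ℂ) 1 := by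
    intro z hz
    simp only [mem_ball, dist_zero_right] at hz ⊢
    rw [norm_mul, Complex.norm_real, Real.norm_of_nonneg hr0.le]
    rw [lt_div_iff₀ hr0] at hz
    linarith
  have hF' : Adm Γ (fun z => F ((r : ℂ) * z)) (1 / r) := by
    refine ⟨fun z hz => ?_, ?_, ?_⟩
    · exact HolAt.comp_analytic (g := fun z => (r : ℂ) * z) (hF.hol _ (hscale z hz))
        (by fun_prop)
    · obtain ⟨a, ha, b, hb, hab⟩ := hF.nc
      have hdiv : ∀ a ∈ ball (0 : ℂ) 1, a / r ∈ ball (0 : ℂ) (1 / r) := by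
        intro a ha
        simp only [mem_ball, dist_zero_right] at ha ⊢
        rw [norm_div, Complex.norm_real, Real.norm_of_nonneg hr0.le]
        gcongr
      refine ⟨a / r, hdiv a ha, b / r, hdiv b hb, ?_⟩
      simpa [mul_div_cancel₀ _ hrC] using hab
    · intro a ha b hb hab heq
      have := hF.inj _ (hscale a ha) _ (hscale b hb) hab heq
      exact mul_left_cancel₀ hrC this
  -- the scaled sets
  set K' : s → Set ℂ := fun C => (fun z => z / (r : ℂ)) '' K C.1 with hK'
  have hcont : Continuous fun z : ℂ => z / (r : ℂ) := by fun_prop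
  have hcore := core_finite2 hc hΓ hA h hR hF' K' (fun C => (hKc _).image hcont)
    (fun C => (hKp _).image _ hcont.continuousOn)
    (by
      rintro C _ ⟨z, hz, rfl⟩
      have hzr : z ∈ ball (0 : ℂ) r := hKr (mem_iUnion₂.2 ⟨C.1, C.2, hz⟩)
      have h1 : z / (r : ℂ) ∈ ball (0 : ℂ) 1 := by
        simp only [mem_ball, dist_zero_right] at hzr ⊢
        rw [norm_div, Complex.norm_real, Real.norm_of_nonneg hr0.le, div_lt_one hr0]
        exact hzr
      refine ⟨⟨ball_subset_ball hR.le h1, ?_⟩, h1⟩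
      have : (r : ℂ) * (z / r) = z := mul_div_cancel₀ _ hrC
      simp only [this]
      exact (hKS _ hz).2)
    (by
      rintro C C' hne _ ⟨z, hz, rfl⟩ _ ⟨w, hw, rfl⟩ hcon
      apply hne
      have hzS : z / (r : ℂ) ∈ ovr Γ (fun z => F ((r : ℂ) * z)) (ball 0 (1 / r)) := by
        by_contra hcc
        rw [connectedComponentIn_eq_empty hcc] at hcon
        exact hcon
      have himg : IsPreconnected ((fun z => (r : ℂ) * z) ''
          connectedComponentIn (ovr Γ (fun z => F ((r : ℂ) * z)) (ball 0 (1 / r))) (z / r)) :=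
        isPreconnected_connectedComponentIn.image _ (by fun_prop)
      have hsub : (fun z => (r : ℂ) * z) ''
          connectedComponentIn (ovr Γ (fun z => F ((r : ℂ) * z)) (ball 0 (1 / r))) (z / r) ⊆ S := by
        rintro _ ⟨v, hv, rfl⟩
        have := connectedComponentIn_subset _ _ hv
        exact ⟨hscale v this.1, this.2⟩
      have hzz : z ∈ (fun z => (r : ℂ) * z) ''
          connectedComponentIn (ovr Γ (fun z => F ((r : ℂ) * z)) (ball 0 (1 / r))) (z / r) :=
        ⟨z / r, mem_connectedComponentIn hzS, mul_div_cancel₀ _ hrC⟩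
      have hww : w ∈ (fun z => (r : ℂ) * z) ''
          connectedComponentIn (ovr Γ (fun z => F ((r : ℂ) * z)) (ball 0 (1 / r))) (z / r) :=
        ⟨w / r, hcon, mul_div_cancel₀ _ hrC⟩
      have hmem : w ∈ connectedComponentIn S z :=
        himg.subset_connectedComponentIn hzz hsub hww
      have e1 := comps_eq_of_mem C.1.2 (hKC _ hz)
      have e2 := comps_eq_of_mem C'.1.2 (hKC _ hw)
      apply Subtype.ext
      apply Subtype.ext
      rw [e1, e2]
      exact connectedComponentIn_eq hmem)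
  -- conclusion
  have hdiam : ∀ C : s, ENNReal.ofReal c * edist (x C.1) (y C.1) ≤
      ENNReal.ofReal (c * Metric.diam (K' C)) := by
    intro C
    rw [ENNReal.ofReal_mul hc0.le, edist_dist]
    gcongr
    have h1 : dist (x C.1 / (r : ℂ)) (y C.1 / r) ≤ Metric.diam (K' C) :=
      dist_le_diam_of_mem (((hKc _).image hcont).isBounded) ⟨_, hxK _, rfl⟩ ⟨_, hyK _, rfl⟩
    refine le_trans ?_ h1
    rw [dist_eq_norm, dist_eq_norm, ← sub_div, norm_div, Complex.norm_real,
      Real.norm_of_nonneg hr0.le, le_div_iff₀ hr0]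
    nlinarith [norm_nonneg (x C.1 - y C.1)]
  have hsum : ∑ C ∈ s, edist (x C) (y C) ≤ ENNReal.ofReal ((16 * A + 2) / c) := by
    have h1 : ENNReal.ofReal c * ∑ C ∈ s, edist (x C) (y C) ≤ ENNReal.ofReal (16 * A + 2) := by
      rw [Finset.mul_sum, ← Finset.sum_coe_sort s fun C => ENNReal.ofReal c * edist (x C) (y C)]
      exact (Finset.sum_le_sum fun C _ => hdiam C).trans hcore
    rw [ENNReal.ofReal_div_of_pos hc0, ENNReal.le_div_iff_mul_le
      (Or.inl (by simpa using hc0)) (Or.inl ENNReal.ofReal_ne_top)]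
    rwa [mul_comm]
  calc ∑ C ∈ s, Metric.ediam C.1 ≤ ∑ C ∈ s, (edist (x C) (y C) + δ) :=
        Finset.sum_le_sum fun C _ => hxy C
    _ = ∑ C ∈ s, edist (x C) (y C) + s.card * δ := by
        rw [Finset.sum_add_distrib, Finset.sum_const, nsmul_eq_mul]
    _ ≤ ENNReal.ofReal ((16 * A + 2) / c) + ε := by
        gcongr
        rw [hδ, ← mul_div_assoc]
        refine ENNReal.div_le_of_le_mul ?_
        rw [mul_comm]
        gcongr
        exact le_self_add

/-- the disk version of (DC) ⇒ (DCR), with constants -/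
theorem core_main2 : ∃ C : ℝ, 0 < C ∧ ∀ Γ : Set (OnePoint ℂ), IsJordanCurve Γ → ∀ A : ℝ, 0 ≤ A →
    CoreDC Γ A → CoreDCR Γ (C * (A + 1)) := by
  obtain ⟨c, hc0, hc⟩ := exists_measure
  refine ⟨16 / c, by positivity, fun Γ hΓ A hA h F hF => ?_⟩
  refine (core_bound hc0 hc hΓ hA h F hF).trans (ENNReal.ofReal_le_ofReal ?_)
  rw [div_mul_eq_mul_div]
  gcongr
  linarith

end Pool.Agent.helper84.QD
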