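import Pool.Agent.helper84.QD.Defs
import Pool.Agent.helper31.QD.M
import Pool.Agent.helper70.QD.P
import Pool.Agent.helper41.QD.S2
import Pool.Agent.helper44.QD.Super
import Pool.Agent.helper50.QD.Key
import Pool.Agent.helper64.QD.R2
import Pool.Agent.helper45.QD.G
import Pool.Agent.helper4.QD.L
import Pool.Agent.helper50.QD.Jord
import Pool.Agent.helper50.QD.Coord

open Metric Set Topology Filter MeasureTheory
open scoped Manifold ContDiff ENNReal ComplexConjugate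

namespace Pool.Agent.helper84.QD

/-! ## Module M : a test measure on a connected compact set -/

/-! ## Module P : the potential `T` -/



/-! ## Module K : the maximum principle on pairs -/
theorem key_pairs {Ω : Set ℂ} (hΩ : IsOpen Ω) {h : ℂ → ℂ} (hh : AnalyticOnNhd ℂ h Ω)
    (hnc : ∀ z ∈ Ω, ¬ (∀ᶠ w in 𝓝 z, h w = h z)) {T : ℂ → ℝ} {M : ℝ}
    (hTc : ContinuousOn T (closedBall 0 1)) (hT0 : ∀ z ∈ sphere (0 : ℂ) 1, T z = 0)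
    (hTM : ∀ z ∈ closedBall (0 : ℂ) 1, T z ≤ M)
    (hTh : ∀ z ∈ Ω ∩ ball 0 1, ∃ g : ℂ → ℂ, AnalyticAt ℂ g z ∧ ∀ᶠ w in 𝓝 z, T w = (g w).re)
    (hcl : closure {p : ℂ × ℂ | p.1 ∈ Ω ∩ closedBall 0 1 ∧ p.2 ∈ Ω ∩ closedBall 0 1 ∧
      p.1 ≠ p.2 ∧ h p.1 = h p.2} ⊆ Ω ×ˢ Ω)
    {a b : ℂ} (ha : a ∈ Ω ∩ ball 0 1) (hb : b ∈ Ω ∩ ball 0 1) (hab : a ≠ b)
    (hhab : h a = h b) : T a + T b ≤ M :=
  Pool.Agent.helper50.QD.key_pairs hΩ hh hnc hTc hT0 hTM hTh hcl ha hb hab hhab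

/-! ## Module S : superlevel components have primitives -/

theorem superlevel_primitives {T : ℂ → ℝ} {m : ℝ} (hTc : ContinuousOn T (closedBall 0 1))
    (hT0 : ∀ z ∈ sphere (0 : ℂ) 1, T z < m)
    (hsm : ∀ c ∈ ball (0 : ℂ) 1, ∀ᶠ r in 𝓝[>] (0 : ℝ), Real.circleAverage T c r ≤ T c)
    {x : ℂ} (hx : x ∈ sup1 T m) {f : ℂ → ℂ}
    (hf : DifferentiableOn ℂ f (connectedComponentIn (sup1 T m) x)) :
    ∃ g : ℂ → ℂ, ∀ z ∈ connectedComponentIn (sup1 T m) x, HasDerivAt g (f z) z :=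
  Pool.Agent.helper44.QD.superlevel_primitives_of
    (fun h1 h2 h3 h4 h5 h6 h7 _ hf' => exact_of_kernels h1 h2 h3 h4 h5 h6 h7 hf') hTc hT0 hsm hx hf

/-! ## Module R : approximate Riemann map -/



/-! ## Module G : Green's function under a conformal map -/
theorem green_mean {g : ℂ → ℂ} (hg : DifferentiableOn ℂ g (ball 0 1)) (hi : InjOn g (ball 0 1))
    (hm : MapsTo g (ball 0 1) (ball 0 1)) (hd : ∀ w ∈ ball (0 : ℂ) 1, deriv g w ≠ 0)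
    {μ : Measure ℂ} [IsFiniteMeasure μ] {K : Set ℂ} (hK : IsCompact K) (hK1 : K ⊆ ball 0 1)
    (hμ : μ Kᶜ = 0) (hat : ∀ z : ℂ, μ {z} = 0) {ρ : ℝ} (hρ : 0 < ρ) (hρ1 : ρ < 1) {m : ℝ≥0∞}
    (hm1 : ∀ w : ℂ, ‖w‖ = ρ → pot μ (g w) ≤ m) :
    pot μ (g 0) ≤
      (∫⁻ y in g '' ball 0 1, ENNReal.ofReal (gr 0 (Function.invFunOn g (ball 0 1) y)) ∂μ) + m :=
  Pool.Agent.helper45.QD.green_mean hg hi hm hd hK hK1 hμ hat hρ hρ1 hm1

theorem green_local {g : ℂ → ℂ} (hg : DifferentiableOn ℂ g (ball 0 1)) (hi : InjOn g (ball 0 1))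
    (hm : MapsTo g (ball 0 1) (ball 0 1)) {μ : Measure ℂ} [IsFiniteMeasure μ]
    (hle : ∀ z ∈ ball (0 : ℂ) 1, pot μ z ≤ 1) {C : Set ℂ} (hC : C ⊆ ball 0 1)
    (hCm : MeasurableSet C) (hCb : ∀ r < (1 : ℝ), ∃ w ∈ C, r < ‖w‖) :
    ∫⁻ y in g '' C, ENNReal.ofReal (gr 0 (Function.invFunOn g (ball 0 1) y)) ∂μ ≤
      8 * Metric.ediam C :=
  Pool.Agent.helper45.QD.green_local hg hi hm hle hC hCm hCb

theorem green_local_one {g : ℂ → ℂ} (hg : DifferentiableOn ℂ g (ball 0 1))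
    (hi : InjOn g (ball 0 1)) (hm : MapsTo g (ball 0 1) (ball 0 1)) {μ : Measure ℂ}
    [IsFiniteMeasure μ] (hle : ∀ z ∈ ball (0 : ℂ) 1, pot μ z ≤ 1) {C : Set ℂ}
    (hC : C ⊆ ball 0 1) (hCm : MeasurableSet C) :
    ∫⁻ y in g '' C, ENNReal.ofReal (gr 0 (Function.invFunOn g (ball 0 1) y)) ∂μ ≤ 1 :=
  Pool.Agent.helper45.QD.green_local_one hg hi hm hle hC hCm

/-! ## Module J : maps to the sphere and Jordan curves -/
theorem HolAt.continuousAt {F : ℂ → OnePoint ℂ} {z : ℂ} (h : HolAt F z) : ContinuousAt F z :=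
  Pool.Agent.helper50.QD.HolAt.continuousAt h

theorem HolAt.comp_analytic {F : ℂ → OnePoint ℂ} {g : ℂ → ℂ} {z : ℂ} (h : HolAt F (g z))
    (hg : AnalyticAt ℂ g z) : HolAt (fun w => F (g w)) z :=
  Pool.Agent.helper50.QD.HolAt.comp_analytic h hg

theorem adm_locInj {Γ : Set (OnePoint ℂ)} (hΓ : IsJordanCurve Γ) {F : ℂ → OnePoint ℂ} {R : ℝ}
    (h : Adm Γ F R) {z : ℂ} (hz : z ∈ ovr Γ F (ball 0 R)) :
    ∃ ε > 0, InjOn F (ball z ε) :=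
  Pool.Agent.helper50.QD.adm_locInj hΓ h hz

/-- local structure: nearby points of `F⁻¹(Γ)` are joined by small continua of `F⁻¹(Γ)`. -/
theorem adm_local {Γ : Set (OnePoint ℂ)} (hΓ : IsJordanCurve Γ) {F : ℂ → OnePoint ℂ} {R : ℝ}
    (h : Adm Γ F R) {z : ℂ} (hz : z ∈ ovr Γ F (ball 0 R)) {ε : ℝ} (hε : 0 < ε) :
    (∃ δ > 0, ∀ w ∈ ovr Γ F (ball 0 R) ∩ ball z δ, ∃ K ⊆ ovr Γ F (ball 0 R) ∩ ball z ε,
      IsCompact K ∧ IsPreconnected K ∧ z ∈ K ∧ w ∈ K) ∧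
    ∃ w ∈ ovr Γ F (ball 0 R) ∩ ball z ε, w ≠ z :=
  Pool.Agent.helper50.QD.adm_local hΓ h hz hε

/-- two points of a component lie on a compact connected subset. -/
theorem comp_join {Γ : Set (OnePoint ℂ)} (hΓ : IsJordanCurve Γ) {F : ℂ → OnePoint ℂ} {R : ℝ}
    (h : Adm Γ F R) {z w : ℂ} (hz : z ∈ ovr Γ F (ball 0 R))
    (hw : w ∈ connectedComponentIn (ovr Γ F (ball 0 R)) z) :
    ∃ K ⊆ ovr Γ F (ball 0 R), IsCompact K ∧ IsPreconnected K ∧ z ∈ K ∧ w ∈ K :=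
  Pool.Agent.helper50.QD.comp_join hΓ h hz hw

theorem comp_pos {Γ : Set (OnePoint ℂ)} (hΓ : IsJordanCurve Γ) {F : ℂ → OnePoint ℂ} {R : ℝ}
    (h : Adm Γ F R) {z : ℂ} (hz : z ∈ ovr Γ F (ball 0 R)) :
    0 < Metric.ediam (connectedComponentIn (ovr Γ F (ball 0 R)) z) :=
  Pool.Agent.helper50.QD.comp_pos hΓ h hz

theorem comp_compact_unique {Γ : Set (OnePoint ℂ)} (hΓ : IsJordanCurve Γ)
    {F : ℂ → OnePoint ℂ} {R : ℝ} (h : Adm Γ F R) {C : Set ℂ} (hC : C ∈ Comps (ovr Γ F (ball 0 R)))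
    (hCk : IsCompact C) : ovr Γ F (ball 0 R) = C :=
  Pool.Agent.helper50.QD.comp_compact_unique hΓ h hC hCk

/-- the finite-valued coordinate of `F` off `F⁻¹(Γ)`. -/
theorem adm_coord {Γ : Set (OnePoint ℂ)} (hΓ : IsJordanCurve Γ) {F : ℂ → OnePoint ℂ} {R : ℝ}
    (h : Adm Γ F R) : ∃ k : ℂ → ℂ,
    IsOpen (ball 0 R \ ovr Γ F (ball 0 R)) ∧
    AnalyticOnNhd ℂ k (ball 0 R \ ovr Γ F (ball 0 R)) ∧
    (∀ z ∈ ball 0 R \ ovr Γ F (ball 0 R), ¬ (∀ᶠ w in 𝓝 z, k w = k z)) ∧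
    (∀ a ∈ ball 0 R \ ovr Γ F (ball 0 R), ∀ b ∈ ball 0 R \ ovr Γ F (ball 0 R),
      (k a = k b ↔ F a = F b)) :=
  Pool.Agent.helper50.QD.adm_coord hΓ h

/-! ## Module L : the literal conditions -/



/-! ## Module A : assembly -/


end Pool.Agent.helper84.QD
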